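import Pool.Agent.J4H85.CD.Stm

set_option autoImplicit false

/-! Piece ARR of project CD (statement of helper85). -/

namespace Pool.Agent.J4H52.CD

open Finset H568R2 Pool.Agent.J4H85.CD

/-- the number of the slot `(b, i, e)` if it is present -/
def bs (k u : ℕ) (b : Bool) (i e : ℕ) : ℕ := if b = true then (u - 1 - e) + 2 * u * k * i else e + 2 * u * i

theorem bs_lt {k u i e : ℕ} (b : Bool) (hk : 1 ≤ k) (hi : i < k) (he : e < u) :
    bs k u b i e < 2 * (k * u) * k := by
  unfold bs
  split_ifs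
  · have h1 : 2 * u * k * i + 2 * u * k ≤ 2 * (k * u) * k := by
      have : i + 1 ≤ k := hi
      calc 2 * u * k * i + 2 * u * k = 2 * u * k * (i + 1) := by ring
        _ ≤ 2 * u * k * k := Nat.mul_le_mul_left _ this
        _ = _ := by ring
    have h2 : u ≤ 2 * u * k := by nlinarith
    omega
  · have h1 : 2 * u * i + 2 * u ≤ 2 * (k * u) * k := by
      have : i + 1 ≤ k := hi
      calc 2 * u * i + 2 * u = 2 * u * (i + 1) := by ring
        _ ≤ 2 * u * k := Nat.mul_le_mul_left _ this
        _ = 2 * u * k * 1 := by ring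
        _ ≤ 2 * u * k * k := Nat.mul_le_mul_left _ hk
        _ = _ := by ring
    omega

theorem key {k u i j e i' j' e' : ℕ} (hi : i < k) (hi' : i' < k) (he : e < u) (he' : e' < u)
    (h : bs k u false i e + bs k u true j e' = (u - 1) + 2 * u * i' + 2 * u * k * j') :
    i = i' ∧ j = j' ∧ e = e' := by
  unfold bs at h
  simp only [Bool.false_eq_true, if_false, if_true] at h
  have hu : 0 < u := by omega
  have h1 : e + 2 * u * (i + k * j) = e' + 2 * u * (i' + k * j') := by
    have e1 : 2 * u * (i + k * j) = 2 * u * i + 2 * u * k * j := by ring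
    have e2 : 2 * u * (i' + k * j') = 2 * u * i' + 2 * u * k * j' := by ring
    omega
  have h2 : e = e' := by
    have h3 := congrArg (fun x => x % (2 * u)) h1
    simp only [Nat.add_mul_mod_self_left] at h3
    rwa [Nat.mod_eq_of_lt (by omega), Nat.mod_eq_of_lt (by omega)] at h3
  have h3 : i + k * j = i' + k * j' := by
    have h4 : 2 * u * (i + k * j) = 2 * u * (i' + k * j') := by omega
    exact Nat.eq_of_mul_eq_mul_left (by omega) h4
  have h4 : i = i' := by
    have h5 := congrArg (fun x => x % k) h3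
    simp only [Nat.add_mul_mod_self_left] at h5
    rwa [Nat.mod_eq_of_lt hi, Nat.mod_eq_of_lt hi'] at h5
  have h5 : j = j' := by
    have h6 : k * j = k * j' := by omega
    exact Nat.eq_of_mul_eq_mul_left (by omega) h6
  exact ⟨h4, h5, h2⟩

theorem t_ARR : S_ARR := by
  classical
  intro n L k u hk hu hkn hL
  have hn1 : 1 ≤ n := le_trans (Nat.mul_pos hk hu) hkn
  obtain ⟨L', rfl⟩ : ∃ L', L = L' + 1 := by
    refine ⟨L - 1, ?_⟩
    rcases L with _ | L
    · exfalso
      simp only [pow_zero] at hL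
      nlinarith
    · omega
  have hL' : 2 * n ^ 2 ≤ 2 ^ L' := by
    have h1 : 2 ^ (L' + 1) = 2 ^ L' * 2 := pow_succ 2 L'
    rw [h1] at hL
    omega
  have hbig : 2 * (k * u) * k ≤ 2 ^ L' := by
    refine le_trans ?_ hL'
    have h1 : k ≤ n := le_trans (Nat.le_mul_of_pos_right k hu) hkn
    calc 2 * (k * u) * k ≤ 2 * n * n := Nat.mul_le_mul (Nat.mul_le_mul_left _ hkn) h1
      _ = _ := by ring
  have hdiv : ∀ t : ℕ, t < k * u → t / u < k := fun t ht => Nat.div_lt_of_lt_mul (by rwa [mul_comm] at ht)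
  have hmod : ∀ t : ℕ, t % u < u := fun t => Nat.mod_lt _ hu
  let arr : (Slot k u → Bool) → Bool → Fin n → ℕ := fun X b t =>
    if h : t.1 < k * u then
      bs k u b (t.1 / u) (t.1 % u) +
        if X (b, ⟨t.1 / u, hdiv t.1 h⟩, ⟨t.1 % u, hmod t.1⟩) = true then 0 else 2 ^ L'
    else 2 ^ L'
  have arr_pos : ∀ X b (t : Fin n) (h : t.1 < k * u), arr X b t =
      bs k u b (t.1 / u) (t.1 % u) +
        if X (b, ⟨t.1 / u, hdiv t.1 h⟩, ⟨t.1 % u, hmod t.1⟩) = true then 0 else 2 ^ L' :=
    fun X b t h => dif_pos h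
  have arr_neg : ∀ X b (t : Fin n), ¬ t.1 < k * u → arr X b t = 2 ^ L' := fun X b t h => dif_neg h
  have hbs : ∀ (b : Bool) (t : ℕ), t < k * u → bs k u b (t / u) (t % u) < 2 ^ L' := fun b t ht =>
    (bs_lt b hk (hdiv t ht) (hmod t)).trans_le hbig
  refine ⟨arr, fun i j => (u - 1) + 2 * u * i.1 + 2 * u * k * j.1, ?_, ?_, ?_⟩
  · intro X b t
    have hp : 2 ^ (L' + 1) = 2 ^ L' + 2 ^ L' := by rw [pow_succ]; ring
    have hpos : 0 < 2 ^ L' := by positivity
    by_cases h : t.1 < k * u
    · rw [arr_pos X b t h, hp]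
      have := hbs b t.1 h
      split_ifs <;> omega
    · rw [arr_neg X b t h, hp]
      omega
  · rintro ⟨b, t, l⟩
    by_cases h : t.1 < k * u
    · refine ⟨{(b, ⟨t.1 / u, hdiv t.1 h⟩, ⟨t.1 % u, hmod t.1⟩)}, by simp, ?_⟩
      intro X Y hXY
      show (arr X b t).testBit l = (arr Y b t).testBit l
      rw [arr_pos X b t h, arr_pos Y b t h, hXY _ (Finset.mem_singleton_self _)]
    · refine ⟨∅, by simp, ?_⟩
      intro X Y _
      show (arr X b t).testBit l = (arr Y b t).testBit l
      rw [arr_neg X b t h, arr_neg Y b t h]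
  · intro X i j
    have hz : (u - 1) + 2 * u * i.1 + 2 * u * k * j.1 < 2 ^ L' := by
      refine lt_of_lt_of_le ?_ hbig
      have h1 : 2 * u * k * j.1 + 2 * u * k ≤ 2 * (k * u) * k := by
        have : j.1 + 1 ≤ k := j.2
        calc 2 * u * k * j.1 + 2 * u * k = 2 * u * k * (j.1 + 1) := by ring
          _ ≤ 2 * u * k * k := Nat.mul_le_mul_left _ this
          _ = _ := by ring
      have h2 : 2 * u * i.1 + 2 * u ≤ 2 * u * k := by
        have : i.1 + 1 ≤ k := i.2
        calc 2 * u * i.1 + 2 * u = 2 * u * (i.1 + 1) := by ring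
          _ ≤ _ := Nat.mul_le_mul_left _ this
      omega
    constructor
    · rintro ⟨t, t', h0⟩
      have h : arr X false t + arr X true t' = (u - 1) + 2 * u * i.1 + 2 * u * k * j.1 := h0
      have small : ∀ (b : Bool) (t : Fin n), arr X b t < 2 ^ L' → ∃ h : t.1 < k * u,
          X (b, ⟨t.1 / u, hdiv t.1 h⟩, ⟨t.1 % u, hmod t.1⟩) = true ∧
          arr X b t = bs k u b (t.1 / u) (t.1 % u) := by
        intro b t hlt
        by_cases h : t.1 < k * u
        · rw [arr_pos X b t h] at hlt ⊢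
          by_cases hX : X (b, ⟨t.1 / u, hdiv t.1 h⟩, ⟨t.1 % u, hmod t.1⟩) = true
          · exact ⟨h, hX, by rw [if_pos hX, add_zero]⟩
          · rw [if_neg hX] at hlt
            omega
        · rw [arr_neg X b t h] at hlt
          omega
      obtain ⟨h1, h2, h3⟩ := small false t (by omega)
      obtain ⟨h1', h2', h3'⟩ := small true t' (by omega)
      rw [h3, h3'] at h
      obtain ⟨a1, a2, a3⟩ := key (hdiv t.1 h1) i.2 (hmod t.1) (hmod t'.1) h
      refine ⟨⟨t.1 % u, hmod t.1⟩, ?_, ?_⟩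
      · have : (⟨t.1 / u, hdiv t.1 h1⟩ : Fin k) = i := Fin.ext a1
        rw [this] at h2
        exact h2
      · have e1 : (⟨t'.1 / u, hdiv t'.1 h1'⟩ : Fin k) = j := Fin.ext a2
        have e2 : (⟨t'.1 % u, hmod t'.1⟩ : Fin u) = ⟨t.1 % u, hmod t.1⟩ := Fin.ext a3.symm
        rw [e1, e2] at h2'
        exact h2'
    · rintro ⟨e, h1, h2⟩
      have idx : ∀ l : Fin k, l.1 * u + e.1 < k * u := by
        intro l
        have : l.1 + 1 ≤ k := l.2
        have he := e.2
        calc l.1 * u + e.1 < l.1 * u + u := by omega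
          _ = (l.1 + 1) * u := by ring
          _ ≤ k * u := Nat.mul_le_mul_right _ this
      have hd : ∀ l : Fin k, (l.1 * u + e.1) / u = l.1 := by
        intro l
        rw [mul_comm, Nat.mul_add_div hu, Nat.div_eq_of_lt e.2, add_zero]
      have hm : ∀ l : Fin k, (l.1 * u + e.1) % u = e.1 := by
        intro l
        rw [mul_comm, Nat.mul_add_mod, Nat.mod_eq_of_lt e.2]
      have val : ∀ (b : Bool) (l : Fin k), X (b, l, e) = true →
          arr X b ⟨l.1 * u + e.1, (idx l).trans_le hkn⟩ = bs k u b l.1 e.1 := by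
        intro b l hX
        rw [arr_pos X b _ (idx l)]
        have e1 : (⟨(l.1 * u + e.1) / u, hdiv _ (idx l)⟩ : Fin k) = l := Fin.ext (hd l)
        have e2 : (⟨(l.1 * u + e.1) % u, hmod _⟩ : Fin u) = e := Fin.ext (hm l)
        simp only [e1, e2, hX, if_true, add_zero, hd, hm]
      refine ⟨⟨i.1 * u + e.1, (idx i).trans_le hkn⟩, ⟨j.1 * u + e.1, (idx j).trans_le hkn⟩, ?_⟩
      rw [val false i h1, val true j h2]
      unfold bs
      simp only [Bool.false_eq_true, if_false, if_true]
      have := e.2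
      omega

end Pool.Agent.J4H52.CD
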