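import Pool.Agent.J4H85.CD.Stm2

set_option autoImplicit false

/-! Piece DTP of project CD, version 2 (statement of helper85). -/

namespace Pool.Agent.J4H52.CD

open Finset DomAC0 H568R2 Pool.Agent.TH163.AC3 Pool.Agent.J4H85.CD

theorem t_DTP : S_DTP := by
  classical
  intro I _ _ g K hg D
  obtain ⟨t, ht, hev⟩ := hg
  have hcard : ∀ x : I → Bool, (t.reads x).card ≤ K := fun x => (t.card_reads x).trans ht
  have hsame : ∀ (x : I → Bool) (l : I), l ∉ t.reads x → g (Function.update x l true) = g x := by
    intro x l hl
    rw [← hev, ← hev]
    refine (t.congr x _ fun i hi => ?_).1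
    have hne : i ≠ l := fun h => hl (h ▸ hi)
    rw [Function.update_of_ne hne]
  refine ⟨?_, ?_⟩
  · refine (Finset.card_le_card (t := t.reads D) ?_).trans (hcard D)
    intro l hl
    by_contra hcon
    unfold sn at hl
    exact (Finset.mem_filter.1 hl).2 (hsame D l hcon)
  · have hsub : jn g D ⊆
        ((t.reads D).biUnion (fun l => (t.reads (Function.update D l true)).image
          (fun l' => (l, l')))) ∪
        ((t.reads D).biUnion (fun l' => (t.reads (Function.update D l' true)).image
          (fun l => (l, l')))) := by
      rintro ⟨l, l'⟩ hl
      unfold jn at hl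
      obtain ⟨-, h1, h2, h3⟩ := Finset.mem_filter.1 hl
      have h1' : g (Function.update D l true) = g D := h1
      have h2' : g (Function.update D l' true) = g D := h2
      have h3' : g (Function.update (Function.update D l true) l' true) ≠ g D := h3
      have hne : l ≠ l' := by
        rintro rfl
        apply h3'
        rw [Function.update_idem, h1']
      rw [Finset.mem_union]
      by_cases hl : l ∈ t.reads D
      · left
        refine Finset.mem_biUnion.2 ⟨l, hl, Finset.mem_image.2 ⟨l', ?_, rfl⟩⟩
        by_contra hcon
        exact h3' ((hsame _ l' hcon).trans h1')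
      · right
        have hl' : l' ∈ t.reads D := by
          by_contra hcon
          apply h3'
          rw [← hev, ← hev]
          refine (t.congr D _ fun i hi => ?_).1
          have a1 : i ≠ l := fun h => hl (h ▸ hi)
          have a2 : i ≠ l' := fun h => hcon (h ▸ hi)
          rw [Function.update_of_ne a2, Function.update_of_ne a1]
        refine Finset.mem_biUnion.2 ⟨l', hl', Finset.mem_image.2 ⟨l, ?_, rfl⟩⟩
        by_contra hcon
        apply h3'
        rw [Function.update_comm hne]
        exact (hsame _ l hcon).trans h2'
    refine (Finset.card_le_card hsub).trans ((Finset.card_union_le _ _).trans ?_)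
    have b : ∀ (mk : I → I → I × I), ((t.reads D).biUnion (fun l =>
        (t.reads (Function.update D l true)).image (mk l))).card ≤ K * K := by
      intro mk
      refine Finset.card_biUnion_le.trans ?_
      refine (Finset.sum_le_sum fun l _ => Finset.card_image_le.trans (hcard _)).trans ?_
      rw [Finset.sum_const, smul_eq_mul]
      exact Nat.mul_le_mul_right _ (hcard D)
    have b1 := b (fun l l' => (l, l'))
    have b2 := b (fun l' l => (l, l'))
    have e : 2 * K ^ 2 = K * K + K * K := by ring
    rw [e]
    exact Nat.add_le_add b1 b2

end Pool.Agent.J4H52.CD
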