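import Pool.Agent.J4H85.CD.Stm

set_option autoImplicit false

/-! Piece JUN of project CD (statement of helper85). -/

namespace Pool.Agent.J4H52.CD

open Finset DomAC0 H568R2 Pool.Agent.J4H85.CD

theorem t_JUN : S_JUN := by
  classical
  intro I J _ _ _ C σ hσ q m d S hq0 hq1 hm hd hS Y
  have hσ' : ∀ j, Junta 1 (fun x : I → Bool => σ (mask Y x) j) := by
    intro j
    obtain ⟨A, hA, h⟩ := hσ j
    refine ⟨A, hA, fun x y hxy => h _ _ fun i hi => ?_⟩
    unfold mask
    rw [hxy i hi]
  have h1 := collapse C (fun x : I → Bool => σ (mask Y x)) hσ' hq0 hq1 hm d d le_rfl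
  have hpow : q ^ d ≤ 1 := pow_le_one₀ hq0 (by linarith)
  have h2 : NJ (KK m d) (q ^ d) (fun x => C.eval (σ x)) Y ≤
      Ex (wq (q ^ d)) (fun ρ : Restr I =>
        if ¬ Good C (fun x : I → Bool => σ (mask Y x)) m d ρ then (1 : ℝ) else 0) := by
    unfold NJ
    refine Ex_mono (wq_nonneg (by positivity) hpow) fun ρ => ?_
    by_cases hG : Good C (fun x : I → Bool => σ (mask Y x)) m d ρ
    · have h3 := node_junta C (fun x : I → Bool => σ (mask Y x)) hσ' hm hG C.output hd
      have h4 : Junta (KK m d) (rs (fun x => C.eval (σ (mask Y x))) ρ) := h3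
      rw [if_neg (not_not.2 h4), if_neg (not_not.2 hG)]
    · rw [if_pos hG]
      by_cases h4 : ¬ Junta (KK m d) (rs (fun x => C.eval (σ (mask Y x))) ρ)
      · rw [if_pos h4]
      · rw [if_neg h4]
        exact zero_le_one
  refine h2.trans (h1.trans ?_)
  unfold eta
  have h5 : (0 : ℝ) ≤ (4 ^ (KK m d) * (3 * q)) ^ m := by positivity
  refine mul_le_mul_of_nonneg_right ?_ h5
  refine mul_le_mul_of_nonneg_left ?_ (by positivity)
  exact_mod_cast Nat.mul_le_mul hS (by omega)

end Pool.Agent.J4H52.CD
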